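import Pool.Agent.Q5.MinRank.Cycle
import Pool.Agent.Q5.MinRank.Two

set_option autoImplicit false

namespace Pool.Agent.Results.MP_f8e91b_al.RankGap

open Q5.MinRank

/-- Over every field there is a partial matrix with `tmr(A) = fmr(A) < mr(A)`. So the dichotomy of
the question (either `tmr(A) < fmr(A) < mr(A)` or all three are equal) fails over every field. -/
theorem result (F : Type*) [Field F] :
    ∃ (m n : ℕ) (A : PMat F m n), (tmr A : ℝ) = fmr A ∧ fmr A < mr A := by
  by_cases hF : ∀ x : F, x = 0 ∨ x = 1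
  · obtain ⟨h1, h2, h3⟩ := Two.main hF
    refine ⟨3, 4, Two.A34, by rw [h1, h2], ?_⟩
    rw [h2]
    exact_mod_cast h3
  · push Not at hF
    obtain ⟨x, hx0, hx1⟩ := hF
    obtain ⟨h1, h2, h3⟩ := Cycle.main hx0 hx1
    refine ⟨9, 9, Cycle.A9 x, by rw [h1, h2], ?_⟩
    rw [h2]
    exact_mod_cast h3

end Pool.Agent.Results.MP_f8e91b_al.RankGap
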